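import Mathlib
import Pool.Agent.Lib.MP_b879c5_an.BlowUp
import Pool.Agent.Lib.MP_b879c5_an.PR.All

/-!
MP_b879c5_an: a trichotomy for all blow-up solutions: `u = 1/(T-t)` exactly, or the profile is `cos²((x-a)/2)`, or
the rescaled `H^{3/2}` norm is unbounded.
-/

set_option autoImplicit false

namespace Pool.Agent.Lib.MPb879c5.Old.ProfileTrichotomy

open Set MeasureTheory Filter Pool.Agent.Lib.MP_b879c5_an
open scoped Topology ContDiff

/-- `u` (first argument time, second argument space) is a classical (smooth) real solution on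
`(0,T) × ℝ`, `2π`-periodic in space, of `u_t = u_xxx + (u_x)^2 + u^2`. -/
def IsClassicalSolution (T : ℝ) (u : ℝ → ℝ → ℝ) : Prop :=
  ContDiffOn ℝ ∞ (fun p : ℝ × ℝ => u p.1 p.2) (Ioo 0 T ×ˢ univ) ∧
  (∀ t ∈ Ioo 0 T, ∀ x, u t (x + 2 * Real.pi) = u t x) ∧
  (∀ t ∈ Ioo 0 T, ∀ x,
    deriv (fun s => u s x) t = iteratedDeriv 3 (u t) x + (deriv (u t) x) ^ 2 + (u t x) ^ 2)

/-- The square of the `H^{1/2}` seminorm of a smooth `2π`-periodic function `p`, in difference (Gagliardo)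
form: `∫_{-π}^{π} ∫_0^{2π} |p(y+s) - p(y)|^2 / s^2 dy ds`. It is comparable with `∑ |n| |p̂(n)|^2`, so
`halfSemi (u_x)` is comparable with the square of the `H^{3/2}` seminorm of `u`. -/
noncomputable def halfSemi (p : ℝ → ℝ) : ℝ :=
  ∫ s in (-Real.pi)..Real.pi, (∫ y in (0)..(2 * Real.pi), (p (y + s) - p y) ^ 2) / s ^ 2

lemma toSol {T : ℝ} {u : ℝ → ℝ → ℝ} (h : IsClassicalSolution T u) :
    Sol T (fun p : ℝ × ℝ => u p.1 p.2) := by
  obtain ⟨hsm, hper, hpde⟩ := h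
  have hS : Sm T (fun p : ℝ × ℝ => u p.1 p.2) := hsm
  refine ⟨hS, hper, ?_⟩
  intro t ht x
  have h1 : deriv (u t) = fun y => Dx (fun p : ℝ × ℝ => u p.1 p.2) (t, y) := by
    funext y; exact (hS.hasDerivAt_x ht y).deriv
  have h2 : deriv (deriv (u t)) = fun y => Dx (Dx (fun p : ℝ × ℝ => u p.1 p.2)) (t, y) := by
    rw [h1]; funext y; exact (hS.dx.hasDerivAt_x ht y).deriv
  have h3 : deriv (deriv (deriv (u t)))
      = fun y => Dx (Dx (Dx (fun p : ℝ × ℝ => u p.1 p.2))) (t, y) := by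
    rw [h2]; funext y; exact (hS.dx.dx.hasDerivAt_x ht y).deriv
  have h4 := hpde t ht x
  have h5 : deriv (fun s => u s x) t = Dt (fun p : ℝ × ℝ => u p.1 p.2) (t, x) :=
    (hS.hasDerivAt_t ht x).deriv
  have h6 : iteratedDeriv 3 (u t) = deriv (deriv (deriv (u t))) := by
    rw [iteratedDeriv_succ, iteratedDeriv_succ, iteratedDeriv_one]
  rw [h5, h6, h3, h1] at h4
  exact h4

/-- **Trichotomy for all blow-up solutions.** Let `T > 0` and let `u` be a classical `2π`-periodic solution of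
`u_t = u_xxx + (u_x)^2 + u^2` on `(0,T) × ℝ` which is unbounded near time `T`. Then one of the following holds.

1. `u(x,t) = 1/(T-t)` for all `t ∈ (0,T)` and all `x`.
2. There is `a : ℝ → ℝ` such that `(T-t) u(x,t) - cos²((x - a(t))/2)` tends to `0` uniformly in `x` and in `H¹` as
   `t → T`; in this case `u` does not have period `2π/n` in `x` for any `n ≥ 2`.
3. `(T-t)^2 * halfSemi (u_x(·,t))` (the square of the rescaled `H^{3/2}` seminorm) is unbounded as `t → T`, and for every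
   `δ > 0` there are times `t` arbitrarily close to `T` with `(T-t) u(x,t) < 1/2 + δ` for some `x`. -/
theorem result : ∀ (T : ℝ) (u : ℝ → ℝ → ℝ), 0 < T → IsClassicalSolution T u →
    (∀ M : ℝ, ∃ᶠ t in 𝓝[<] T, ∃ x, M < |u t x|) →
    (∀ t ∈ Ioo 0 T, ∀ x, u t x = 1 / (T - t)) ∨
    ((∃ a : ℝ → ℝ,
        (∀ η > 0, ∀ᶠ t in 𝓝[<] T, ∀ x, |(T - t) * u t x - Real.cos ((x - a t) / 2) ^ 2| ≤ η) ∧
        ∀ η > 0, ∀ᶠ t in 𝓝[<] T, (∫ x in (0)..(2 * Real.pi),
          ((T - t) * deriv (u t) x - deriv (fun y => Real.cos ((y - a t) / 2) ^ 2) x) ^ 2) ≤ η) ∧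
      ∀ n : ℕ, 2 ≤ n → ∃ t ∈ Ioo 0 T, ∃ x, u t (x + 2 * Real.pi / n) ≠ u t x) ∨
    ((∀ C, ∃ᶠ t in 𝓝[<] T, C < (T - t) ^ 2 * halfSemi (deriv (u t))) ∧
      ∀ δ > 0, ∃ᶠ t in 𝓝[<] T, ∃ x, (T - t) * u t x < 1 / 2 + δ) := by
  intro T u hT hu hblow
  by_cases hne : ∀ t ∈ Ioo 0 T, ∀ x, u t x = 1 / (T - t)
  · exact Or.inl hne
  refine Or.inr ?_
  have hS := toSol hu
  have hb : Blow T (fun p : ℝ × ℝ => u p.1 p.2) := by
    intro M t₀ ht₀
    have h1 := hblow M
    have h2 : Ioo (max t₀ 0) T ∈ 𝓝[<] T := Ioo_mem_nhdsLT (max_lt ht₀ hT)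
    obtain ⟨s, ⟨hx, hs⟩⟩ := (h1.and_eventually h2).exists
    exact ⟨s, ⟨(le_max_right _ _).trans_lt hs.1, hs.2⟩, (le_max_left _ _).trans_lt hs.1, hx⟩
  have hd : ∀ t ∈ Ioo 0 T, deriv (u t) = fun y => Dx (fun p : ℝ × ℝ => u p.1 p.2) (t, y) := by
    intro t ht; funext y; exact (hS.sm.hasDerivAt_x ht y).deriv
  have hg : ∀ t ∈ Ioo 0 T, halfSemi (deriv (u t))
      = Pool.Agent.Lib.MPb879c5.PR.Gag (fun x => Dx (fun p : ℝ × ℝ => u p.1 p.2) (t, x)) := by
    intro t ht; rw [hd t ht]; rfl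
  have hn : Ioo 0 T ∈ 𝓝[<] T := Ioo_mem_nhdsLT hT
  obtain ⟨h1, h2, h3⟩ := Pool.Agent.Lib.MPb879c5.PR.final_all T _ hT hS hb hne
  by_cases hbd : ∃ C, ∀ᶠ t in 𝓝[<] T, (T - t) ^ 2 * halfSemi (deriv (u t)) ≤ C
  · refine Or.inl ⟨?_, ?_⟩
    · obtain ⟨C, hC⟩ := hbd
      obtain ⟨a, ha1, ha2⟩ := h2 ⟨C, by filter_upwards [hC, hn] with t ht ht0; rw [← hg t ht0]; exact ht⟩
      refine ⟨a, ha1, fun η hη => ?_⟩
      filter_upwards [ha2 η hη, hn] with t ht ht0
      refine le_trans (le_of_eq ?_) ht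
      refine intervalIntegral.integral_congr fun x _ => ?_
      have e1 : deriv (fun y => Real.cos ((y - a t) / 2) ^ 2) x = -(Real.sin (x - a t) / 2) := by
        have e2 : HasDerivAt (fun y => (y - a t) / 2) (1 / 2) x := by
          simpa using ((hasDerivAt_id x).sub_const (a t)).div_const 2
        have e3 := ((Real.hasDerivAt_cos ((x - a t) / 2)).comp x e2).pow 2
        have e4 : Real.sin (x - a t) = 2 * Real.sin ((x - a t) / 2) * Real.cos ((x - a t) / 2) := by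
          rw [← Real.sin_two_mul]; congr 1; ring
        have e5 : deriv (fun y => Real.cos ((y - a t) / 2) ^ 2) x = _ := e3.deriv
        rw [e5, e4]
        simp only [Function.comp]
        push_cast
        ring
      show ((T - t) * deriv (u t) x - deriv (fun y => Real.cos ((y - a t) / 2) ^ 2) x) ^ 2
        = ((T - t) * Dx (fun p : ℝ × ℝ => u p.1 p.2) (t, x) + Real.sin (x - a t) / 2) ^ 2
      rw [e1, hd t ht0]
      ring
    · intro n hn2
      by_contra hcon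
      push Not at hcon
      obtain ⟨C, hC⟩ := hbd
      have h4 := ((h3 n hn2 hcon C).and_eventually hn).and_eventually hC
      obtain ⟨t, ⟨ht1, ht2⟩, ht3⟩ := h4.exists
      rw [hg t ht2] at ht3
      exact absurd ht3 (not_le.mpr ht1)
  · refine Or.inr ⟨?_, h1⟩
    intro C
    by_contra hcon
    rw [not_frequently] at hcon
    exact hbd ⟨C, by filter_upwards [hcon] with t ht; exact not_lt.mp ht⟩

end Pool.Agent.Lib.MPb879c5.Old.ProfileTrichotomy
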